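import Mathlib
import Pool.Agent.HD3.Final

/-!
# Separating the faces of a 3-dimensional convex body from an interior point by 8 planes
-/

set_option autoImplicit false

open Set
open scoped InnerProductSpace

namespace Pool.Agent.HD3.Extra.SeparationThree

/-- For every convex body `K` in Euclidean 3-space and every interior point `o` of `K` there are
8 planes such that every face of `K` is strictly separated from `o` by one of them. -/
theorem result (K : Set (EuclideanSpace ℝ (Fin 3))) (hc : Convex ℝ K) (hK : IsCompact K)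
    (o : EuclideanSpace ℝ (Fin 3)) (ho : o ∈ interior K) :
    ∃ w : Fin (2 ^ 3) → EuclideanSpace ℝ (Fin 3), ∃ b : Fin (2 ^ 3) → ℝ,
      ∀ u x₀ : EuclideanSpace ℝ (Fin 3), u ≠ 0 → x₀ ∈ K →
        (∀ y ∈ K, ⟪u, y⟫_ℝ ≤ ⟪u, x₀⟫_ℝ) →
          ∃ i, ⟪w i, o⟫_ℝ < b i ∧
            ∀ x ∈ K, ⟪u, x⟫_ℝ = ⟪u, x₀⟫_ℝ → b i < ⟪w i, x⟫_ℝ := by
  classical
  obtain ⟨r, hr, hball⟩ := Metric.isOpen_iff.1 isOpen_interior o ho
  have hmem : ∀ v : EuclideanSpace ℝ (Fin 3), ‖v‖ < r → o + v ∈ K := fun v hv =>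
    interior_subset (hball (by rw [Metric.mem_ball, dist_eq_norm, add_sub_cancel_left]; exact hv))
  obtain ⟨R, hR0, hR⟩ : ∃ R : ℝ, 0 < R ∧ ∀ x ∈ K, ‖x - o‖ ≤ R := by
    obtain ⟨R, hR⟩ := hK.isBounded.exists_norm_le
    refine ⟨R + ‖o‖ + 1, ?_, fun x hx => ?_⟩
    · have := hR o (interior_subset ho)
      have := norm_nonneg o
      linarith
    · have h1 := hR x hx
      have h2 := norm_sub_le x o
      linarith
  -- the polar body of `K` with respect to `o`
  set P : Set (EuclideanSpace ℝ (Fin 3)) := {y | ∀ x ∈ K, ⟪y, x - o⟫_ℝ ≤ 1} with hP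
  have hPmem : ∀ y, y ∈ P ↔ ∀ x ∈ K, ⟪y, x - o⟫_ℝ ≤ 1 := fun y => Iff.rfl
  have hPclosed : IsClosed P := by
    have h1 : P = ⋂ x ∈ K, {y : EuclideanSpace ℝ (Fin 3) | ⟪y, x - o⟫_ℝ ≤ 1} := by
      ext y
      simp only [mem_iInter]
      exact hPmem y
    rw [h1]
    refine isClosed_biInter fun x _ => isClosed_le (by fun_prop) continuous_const
  have hPconv : Convex ℝ P := by
    intro y hy z hz a b ha hb hab
    rw [hPmem] at hy hz ⊢
    intro x hx
    rw [inner_add_left, inner_smul_left, inner_smul_left]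
    simp only [conj_trivial]
    have h1 := hy x hx
    have h2 := hz x hx
    nlinarith
  have hPbdd : ∀ y ∈ P, ‖y‖ ≤ 2 / r := by
    intro y hy
    rcases eq_or_ne y 0 with rfl | hy0
    · rw [norm_zero]; positivity
    · have hn : 0 < ‖y‖ := norm_pos_iff.2 hy0
      have h1 := (hPmem y).1 hy (o + (r / (2 * ‖y‖)) • y) (hmem _ (by
        rw [norm_smul, Real.norm_eq_abs, abs_of_pos (by positivity)]
        have : r / (2 * ‖y‖) * ‖y‖ = r / 2 := by field_simp
        rw [this]; linarith))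
      rw [add_sub_cancel_left, inner_smul_right, real_inner_self_eq_norm_sq] at h1
      have h2 : r / (2 * ‖y‖) * ‖y‖ ^ 2 = r / 2 * ‖y‖ := by field_simp
      rw [h2] at h1
      rw [le_div_iff₀ hr]
      linarith
  have hPcomp : IsCompact P := by
    refine Metric.isCompact_of_isClosed_isBounded hPclosed ?_
    rw [isBounded_iff_forall_norm_le]
    exact ⟨2 / r, hPbdd⟩
  have hPint : (interior P).Nonempty := by
    refine ⟨0, mem_interior.2 ⟨Metric.ball 0 (1 / R), ?_, Metric.isOpen_ball,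
      Metric.mem_ball_self (by positivity)⟩⟩
    intro y hy
    rw [mem_ball_zero_iff] at hy
    rw [hPmem]
    intro x hx
    calc ⟪y, x - o⟫_ℝ ≤ ‖y‖ * ‖x - o‖ := real_inner_le_norm _ _
      _ ≤ 1 / R * R := by
          apply mul_le_mul hy.le (hR x hx) (norm_nonneg _) (by positivity)
      _ = 1 := by field_simp
  obtain ⟨t, ht⟩ := Pool.Agent.HD3.all P hPcomp hPconv hPint
  have hopen : ∀ i : Fin 8, IsOpen ((fun x => t i + x) '' interior P) := fun i =>
    (Homeomorph.addLeft (t i)).isOpenMap _ isOpen_interior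
  obtain ⟨C, hC1, hC2, hC3⟩ := hPcomp.finite_compact_cover (Finset.univ : Finset (Fin 8))
    (fun i => (fun x => t i + x) '' interior P) (fun i _ => hopen i) (by simpa using ht)
  -- uniform gaps
  have hgap : ∀ i : Fin 8, ∃ ε : ℝ, 0 < ε ∧ ∀ y ∈ C i, ∀ x ∈ K, ⟪y - t i, x - o⟫_ℝ ≤ 1 - ε := by
    intro i
    by_cases hne : (C i).Nonempty
    · have hfc : Continuous (fun p : EuclideanSpace ℝ (Fin 3) × EuclideanSpace ℝ (Fin 3) =>
          ⟪p.1 - t i, p.2 - o⟫_ℝ) := by fun_prop
      obtain ⟨p, hp, hmax⟩ := ((hC1 i).prod hK).exists_isMaxOn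
        (hne.prod ⟨o, interior_subset ho⟩) hfc.continuousOn
      have hlt : ⟪p.1 - t i, p.2 - o⟫_ℝ < 1 := by
        obtain ⟨y', hy', hy''⟩ := hC2 i hp.1
        have hy3 : p.1 - t i = y' := by rw [← hy'']; simp
        rw [hy3]
        have hlin : Filter.Tendsto (fun s : ℝ => (1 + s) • y') (nhds 0) (nhds y') := by
          have h1 : Continuous (fun s : ℝ => (1 + s) • y') := by fun_prop
          have h2 := h1.tendsto 0
          simpa using h2
        obtain ⟨δ, hδ, hδ'⟩ := Metric.eventually_nhds_iff.1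
          (hlin.eventually (isOpen_interior.mem_nhds hy'))
        have h4 : (1 + δ / 2) • y' ∈ P := interior_subset (hδ' (by
          rw [Real.dist_eq, sub_zero, abs_of_pos (by positivity)]
          linarith))
        have h5 := (hPmem _).1 h4 p.2 hp.2
        rw [inner_smul_left] at h5
        simp only [conj_trivial] at h5
        by_contra hcon
        push Not at hcon
        nlinarith
      refine ⟨1 - ⟪p.1 - t i, p.2 - o⟫_ℝ, by linarith, fun y hy x hx => ?_⟩
      have h6 := hmax (a := (y, x)) ⟨hy, hx⟩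
      simp only [mem_setOf_eq] at h6
      linarith
    · exact ⟨1, one_pos, fun y hy => (hne ⟨y, hy⟩).elim⟩
  choose ε hε hgap using hgap
  refine ⟨t, fun i => ⟪t i, o⟫_ℝ + ε i / 2, ?_⟩
  intro u x₀ hu hx₀ hmax
  have hs : 0 < ⟪u, x₀ - o⟫_ℝ := by
    have hn : 0 < ‖u‖ := norm_pos_iff.2 hu
    have h1 := hmax (o + (r / (2 * ‖u‖)) • u) (hmem _ (by
        rw [norm_smul, Real.norm_eq_abs, abs_of_pos (by positivity)]
        have : r / (2 * ‖u‖) * ‖u‖ = r / 2 := by field_simp
        rw [this]; linarith))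
    rw [inner_add_right, inner_smul_right, real_inner_self_eq_norm_sq] at h1
    have h2 : 0 < r / (2 * ‖u‖) * ‖u‖ ^ 2 := by positivity
    rw [inner_sub_right]
    linarith
  set s : ℝ := ⟪u, x₀ - o⟫_ℝ with hsdef
  have hyP : s⁻¹ • u ∈ P := by
    rw [hPmem]
    intro x hx
    rw [inner_smul_left]
    simp only [conj_trivial]
    have h1 := hmax x hx
    have h2 : ⟪u, x - o⟫_ℝ ≤ s := by
      rw [hsdef, inner_sub_right, inner_sub_right]; linarith
    calc s⁻¹ * ⟪u, x - o⟫_ℝ ≤ s⁻¹ * s := mul_le_mul_of_nonneg_left h2 (by positivity)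
      _ = 1 := by field_simp
  rw [hC3] at hyP
  simp only [Finset.mem_univ, iUnion_true, mem_iUnion] at hyP
  obtain ⟨i, hi⟩ := hyP
  refine ⟨i, by linarith [hε i], ?_⟩
  intro x hx hxu
  have h1 := hgap i _ hi x hx
  have h2 : ⟪u, x - o⟫_ℝ = s := by
    rw [hsdef, inner_sub_right, inner_sub_right, hxu]
  rw [inner_sub_left, inner_smul_left, h2] at h1
  simp only [conj_trivial] at h1
  have h3 : s⁻¹ * s = 1 := by field_simp
  rw [h3, inner_sub_right] at h1
  have := hε i
  linarith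

end Pool.Agent.HD3.Extra.SeparationThree
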