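import Mathlib
import Pool.Agent.HD3.Final

/-!
# Every convex body of Euclidean 3-space splits into 8 parts of smaller width
-/

set_option autoImplicit false

open Set

namespace Pool.Agent.HD3.Extra.WidthThree

/-- Every convex body in Euclidean 3-space splits into 8 pairwise disjoint sets, each of strictly
smaller width than the body in every direction. -/
theorem result (F : Set (EuclideanSpace ℝ (Fin 3)))
    (hc : Convex ℝ F) (hF : IsCompact F) (hi : (interior F).Nonempty) :
    ∃ G : Fin (2 ^ 3) → Set (EuclideanSpace ℝ (Fin 3)),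
      (⋃ i, G i) = F ∧
      (∀ i j, i ≠ j → Disjoint (G i) (G j)) ∧
      ∀ i, ∀ u : EuclideanSpace ℝ (Fin 3), ‖u‖ = 1 →
        sSup ((fun x => inner ℝ u x) '' G i) - sInf ((fun x => inner ℝ u x) '' G i)
          < sSup ((fun x => inner ℝ u x) '' F) - sInf ((fun x => inner ℝ u x) '' F) := by
  classical
  obtain ⟨t, ht⟩ := Pool.Agent.HD3.all F hF hc hi
  have hopen : ∀ i : Fin 8, IsOpen ((fun x => t i + x) '' interior F) := fun i =>
    (Homeomorph.addLeft (t i)).isOpenMap _ isOpen_interior
  obtain ⟨C, hC1, hC2, hC3⟩ := hF.finite_compact_cover (Finset.univ : Finset (Fin 8))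
    (fun i => (fun x => t i + x) '' interior F) (fun i _ => hopen i) (by simpa using ht)
  have hC3' : F = ⋃ i, C i := by simpa using hC3
  refine ⟨fun i => C i \ ⋃ j : {j : Fin 8 // j < i}, C j, ?_, ?_, ?_⟩
  · apply Subset.antisymm
    · refine iUnion_subset fun i => ?_
      rw [hC3']
      exact diff_subset.trans (subset_iUnion C i)
    · intro x hx
      rw [hC3', mem_iUnion] at hx
      have hex : (Finset.univ.filter fun i : Fin 8 => x ∈ C i).Nonempty := by
        obtain ⟨i, hi⟩ := hx
        exact ⟨i, by simp [hi]⟩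
      set m := (Finset.univ.filter fun i : Fin 8 => x ∈ C i).min' hex with hm
      have h1 : m ∈ Finset.univ.filter fun i : Fin 8 => x ∈ C i := Finset.min'_mem _ hex
      rw [mem_iUnion]
      refine ⟨m, (Finset.mem_filter.1 h1).2, ?_⟩
      rw [mem_iUnion]
      rintro ⟨⟨j, hj⟩, hxj⟩
      have h2 := Finset.min'_le (Finset.univ.filter fun i : Fin 8 => x ∈ C i) j
        (by simp only [Finset.mem_filter, Finset.mem_univ, true_and]; exact hxj)
      exact absurd hj (not_lt.2 h2)
  · intro i j hij
    rw [Set.disjoint_left]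
    intro x hxi hxj
    rcases lt_or_gt_of_ne hij with h | h
    · exact hxj.2 (mem_iUnion.2 ⟨⟨i, h⟩, hxi.1⟩)
    · exact hxi.2 (mem_iUnion.2 ⟨⟨j, h⟩, hxj.1⟩)
  · intro i u hu
    have hfc : Continuous (fun x : EuclideanSpace ℝ (Fin 3) => inner ℝ u x) := by fun_prop
    have hcomp : IsCompact ((fun x => inner ℝ u x) '' F) := hF.image hfc
    have hba : BddAbove ((fun x => inner ℝ u x) '' F) := hcomp.bddAbove
    have hbb : BddBelow ((fun x => inner ℝ u x) '' F) := hcomp.bddBelow
    -- strict inequalities at interior points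
    have hup : ∀ x ∈ interior F, inner ℝ u x < sSup ((fun x => inner ℝ u x) '' F) := by
      intro x hx
      obtain ⟨r, hr, hball⟩ := Metric.isOpen_iff.1 isOpen_interior x hx
      have h1 : x + (r / 2) • u ∈ F := interior_subset (hball (by
        rw [Metric.mem_ball, dist_eq_norm, add_sub_cancel_left, norm_smul, hu, mul_one,
          Real.norm_eq_abs, abs_of_pos (by positivity)]
        linarith))
      have h2 : inner ℝ u (x + (r / 2) • u) ≤ sSup ((fun x => inner ℝ u x) '' F) :=
        le_csSup hba ⟨_, h1, rfl⟩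
      rw [inner_add_right, inner_smul_right, real_inner_self_eq_norm_sq, hu] at h2
      linarith
    have hlo : ∀ x ∈ interior F, sInf ((fun x => inner ℝ u x) '' F) < inner ℝ u x := by
      intro x hx
      obtain ⟨r, hr, hball⟩ := Metric.isOpen_iff.1 isOpen_interior x hx
      have h1 : x - (r / 2) • u ∈ F := interior_subset (hball (by
        rw [Metric.mem_ball, dist_eq_norm]
        have h3 : x - (r / 2) • u - x = -((r / 2) • u) := by abel
        rw [h3, norm_neg, norm_smul, hu, mul_one,
          Real.norm_eq_abs, abs_of_pos (by positivity)]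
        linarith))
      have h2 : sInf ((fun x => inner ℝ u x) '' F) ≤ inner ℝ u (x - (r / 2) • u) :=
        csInf_le hbb ⟨_, h1, rfl⟩
      rw [inner_sub_right, inner_smul_right, real_inner_self_eq_norm_sq, hu] at h2
      linarith
    by_cases hne : (C i \ ⋃ j : {j : Fin 8 // j < i}, C j).Nonempty
    · have hneC : (C i).Nonempty := hne.mono diff_subset
      obtain ⟨p, hp, hmax⟩ := (hC1 i).exists_isMaxOn hneC hfc.continuousOn
      obtain ⟨q, hq, hmin⟩ := (hC1 i).exists_isMinOn hneC hfc.continuousOn
      have h1 : sSup ((fun x => inner ℝ u x) '' (C i \ ⋃ j : {j : Fin 8 // j < i}, C j)) ≤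
          inner ℝ u p := by
        refine csSup_le (hne.image _) ?_
        rintro _ ⟨x, hx, rfl⟩
        exact hmax hx.1
      have h2 : inner ℝ u q ≤
          sInf ((fun x => inner ℝ u x) '' (C i \ ⋃ j : {j : Fin 8 // j < i}, C j)) := by
        refine le_csInf (hne.image _) ?_
        rintro _ ⟨x, hx, rfl⟩
        exact hmin hx.1
      obtain ⟨p', hp', hp''⟩ := hC2 i hp
      obtain ⟨q', hq', hq''⟩ := hC2 i hq
      have h3 := hup p' hp'
      have h4 := hlo q' hq'
      have h5 : inner ℝ u p = inner ℝ u (t i) + inner ℝ u p' := by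
        rw [← hp'', inner_add_right]
      have h6 : inner ℝ u q = inner ℝ u (t i) + inner ℝ u q' := by
        rw [← hq'', inner_add_right]
      linarith
    · have h0 : (C i \ ⋃ j : {j : Fin 8 // j < i}, C j) = ∅ := not_nonempty_iff_eq_empty.1 hne
      obtain ⟨a, ha⟩ := hi
      have h3 := hup a ha
      have h4 := hlo a ha
      show sSup ((fun x => inner ℝ u x) '' (C i \ ⋃ j : {j : Fin 8 // j < i}, C j)) -
        sInf ((fun x => inner ℝ u x) '' (C i \ ⋃ j : {j : Fin 8 // j < i}, C j)) < _
      rw [h0, image_empty, Real.sSup_empty, Real.sInf_empty]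
      linarith

end Pool.Agent.HD3.Extra.WidthThree
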